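import Mathlib

set_option autoImplicit false

namespace Pool.Agent.Results.MP_0a44cb_nt.BadlyApproxR5

open Filter Topology

/-- `x_n = {n² α}`, the fractional part of `n² α`. -/
noncomputable def x (α : ℝ) (n : ℕ) : ℝ := Int.fract ((n : ℝ) ^ 2 * α)

/-- The `k`-level correlation `R_k(f, N)` of `{n² α}` for `k = d + 1` and `f : ℝ^d → ℝ`:
`(1/N)` times the sum over pairwise distinct `n_0, …, n_d ∈ {1, …, N}` and over `m ∈ ℤ^d` of
`f (N (x_{n_0} - x_{n_1} + m_0), …, N (x_{n_{d-1}} - x_{n_d} + m_{d-1}))`. -/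
noncomputable def corr (d N : ℕ) (α : ℝ) (f : (Fin d → ℝ) → ℝ) : ℝ :=
  (1 / (N : ℝ)) *
    ∑ n ∈ (Fintype.piFinset fun _ : Fin (d + 1) => Finset.Icc 1 N).filter
        (fun n => Function.Injective n),
      ∑' m : Fin d → ℤ,
        f fun i => (N : ℝ) * (x α (n i.castSucc) - x α (n i.succ) + (m i : ℝ))

/-- `{n² α}` is Poissonian along `N_j`: for every `k = d + 1 ≥ 2` and every continuous compactly
supported `f : ℝ^d → ℝ`, `R_k(f, N_j)` tends to the integral of `f`. -/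
def PoissonianAlong (α : ℝ) (N : ℕ → ℕ) : Prop :=
  ∀ d : ℕ, 1 ≤ d → ∀ f : (Fin d → ℝ) → ℝ, Continuous f → HasCompactSupport f →
    Tendsto (fun j => corr d (N j) α f) atTop (𝓝 (∫ y, f y))

/-- `α` is of type `κ`. -/
def IsOfType (κ α : ℝ) : Prop :=
  ∃ C : ℝ, 0 < C ∧ ∀ a q : ℤ, 1 ≤ q → IsCoprime a q →
    C * (q : ℝ) ^ (-κ) ≤ |α - (a : ℝ) / (q : ℝ)|

/-! ### The arithmetic of the construction -/

def qq (j : ℕ) : ℤ := 4 ^ (2 ^ j)

def aa : ℕ → ℤ
  | 0 => 1
  | j + 1 => aa j * qq j + 1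

lemma qq_succ (j : ℕ) : qq (j + 1) = qq j ^ 2 := by
  unfold qq
  rw [pow_succ, pow_mul]

lemma aa_succ (j : ℕ) : aa (j + 1) = aa j * qq j + 1 := rfl

lemma four_le_qq (j : ℕ) : 4 ≤ qq j := by
  unfold qq
  calc (4 : ℤ) = 4 ^ 1 := by norm_num
    _ ≤ 4 ^ 2 ^ j := pow_le_pow_right₀ (by norm_num) Nat.one_le_two_pow

lemma qq_pos (j : ℕ) : 0 < qq j := by linarith [four_le_qq j]

lemma coprime_aa : ∀ j, IsCoprime (aa j) (qq j)
  | 0 => isCoprime_one_left
  | j + 1 => by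
    refine ⟨1 - aa j * qq j, aa j ^ 2, ?_⟩
    rw [qq_succ, aa_succ]
    ring

/-- the constants `γ_j = (1/24) (1 + 8 / q_j)` -/
noncomputable def gam (j : ℕ) : ℝ := 1 / 24 * (1 + 8 / (qq j : ℝ))

lemma gam_zero : gam 0 = 1 / 8 := by
  unfold gam qq; norm_num

lemma gam_pos (j : ℕ) : 0 < gam j := by
  have : (0 : ℝ) < qq j := by exact_mod_cast qq_pos j
  unfold gam; positivity

lemma gam_ge (j : ℕ) : 1 / 24 ≤ gam j := by
  have : (0 : ℝ) < qq j := by exact_mod_cast qq_pos j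
  have h : (0 : ℝ) < 8 / (qq j : ℝ) := by positivity
  unfold gam; linarith

lemma gam_le (j : ℕ) : gam j ≤ 1 / 8 := by
  have h4 : (4 : ℝ) ≤ qq j := by exact_mod_cast four_le_qq j
  have h : 8 / (qq j : ℝ) ≤ 2 := by rw [div_le_iff₀ (by linarith)]; linarith
  unfold gam; linarith

lemma gam_succ (j : ℕ) : 4 * gam (j + 1) ≤ (gam j - gam (j + 1)) * qq j := by
  have h4 : (4 : ℝ) ≤ qq j := by exact_mod_cast four_le_qq j
  have hq : (qq (j + 1) : ℝ) = (qq j : ℝ) ^ 2 := by rw [qq_succ]; push_cast; ring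
  unfold gam
  rw [hq]
  set Q : ℝ := (qq j : ℝ)
  have hQ : 0 < Q := by linarith
  have h1 : (1 / 24 * (1 + 8 / Q) - 1 / 24 * (1 + 8 / Q ^ 2)) * Q = 1 / 3 * (1 - 1 / Q) := by
    field_simp
    ring
  rw [h1]
  have h2 : 1 / Q ≤ 1 / 4 := one_div_le_one_div_of_le (by norm_num) h4
  have h3 : 8 / Q ^ 2 ≤ 1 / 2 := by
    rw [div_le_iff₀ (by positivity)]; nlinarith
  linarith

/-- one step of the induction, in terms of the smaller element `u`, the larger element `w` -/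
lemma step (g g' Q U W T : ℝ) (hg' : 0 < g') (hg8 : g ≤ 1 / 8) (hgg : 4 * g' ≤ (g - g') * Q)
    (hQ : 4 ≤ Q) (hU : 1 ≤ U) (hT : 1 ≤ T) (hUW : U ≤ W)
    (h1 : Q * T - U ≤ W) (h1' : Q * T ≤ W + U)
    (hUT : U ≤ T ∨ T + 1 ≤ U)
    (IH : g * Q * (1 + 1 / min U T) ≤ U * T) :
    g' * Q ^ 2 * (1 + 1 / U) ≤ U * W := by
  by_contra hcon
  push Not at hcon
  have hQ0 : 0 < Q := by linarith
  have hgg' : g' < g := by
    have : 0 < (g - g') * Q := by linarith
    have := pos_of_mul_pos_left this hQ0.le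
    linarith
  have hU1 : 1 / U ≤ 1 := by rw [div_le_one (by linarith)]; exact hU
  have hb : U * W < 2 * g' * Q ^ 2 := by
    have : g' * Q ^ 2 * (1 + 1 / U) ≤ g' * Q ^ 2 * 2 :=
      mul_le_mul_of_nonneg_left (by linarith) (by positivity)
    linarith
  have hlow : U * (Q * T - U) ≤ U * W := mul_le_mul_of_nonneg_left h1 (by linarith)
  rcases hUT with hUT | hUT
  · rw [min_eq_left hUT] at IH
    have h2 : Q * (U * U) ≤ 2 * (U * W) := by
      have : U * (Q * T) ≤ U * (W + U) := mul_le_mul_of_nonneg_left h1' (by linarith)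
      have h3 : U * U ≤ U * T := mul_le_mul_of_nonneg_left hUT (by linarith)
      have h4 : Q * (U * U) ≤ Q * (U * T) := mul_le_mul_of_nonneg_left h3 hQ0.le
      have h5 : U * U ≤ U * W := mul_le_mul_of_nonneg_left hUW (by linarith)
      nlinarith
    have h3 : U * U < 4 * g' * Q := by
      have : Q * (U * U) < Q * (4 * g' * Q) := by nlinarith
      exact lt_of_mul_lt_mul_left this hQ0.le
    have h4 : Q * (g * Q * (1 + 1 / U)) ≤ Q * (U * T) := mul_le_mul_of_nonneg_left IH hQ0.le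
    have h5 : 0 ≤ 1 / U := by positivity
    have h6 : (4 * g') * (Q * (1 + 1 / U)) ≤ ((g - g') * Q) * (Q * (1 + 1 / U)) :=
      mul_le_mul_of_nonneg_right hgg (by positivity)
    nlinarith
  · rw [min_eq_right (by linarith)] at IH
    -- `U T ≥ g Q (1 + 1/T)`
    have hT0 : 0 < T := by linarith
    have hg0 : 0 < g := by linarith
    have h2 : g * Q * (T + 1) ≤ U * T ^ 2 := by
      have h3 : g * Q * (1 + 1 / T) * T = g * Q * (T + 1) := by field_simp
      have h4 := mul_le_mul_of_nonneg_right IH hT0.le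
      rw [h3] at h4
      nlinarith
    have h3 : g' * Q ^ 2 * (1 + 1 / U) ≤ g * Q ^ 2 * (1 + 1 / (T + 1)) := by
      have h4 : 1 / U ≤ 1 / (T + 1) := one_div_le_one_div_of_le (by linarith) hUT
      have h5 : 0 < 1 / U := by positivity
      apply mul_le_mul _ (by linarith) (by positivity) (by positivity)
      exact mul_le_mul_of_nonneg_right hgg'.le (by positivity)
    -- reduce to an inequality for `U (Q T - U)`
    have h4 : U * (Q * T - U) < g * Q ^ 2 * (1 + 1 / (T + 1)) := by linarith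
    have h5 : U * U < Q * Q / 4 := by
      have : U * U ≤ U * W := mul_le_mul_of_nonneg_left hUW (by linarith)
      nlinarith
    have h6 : U < Q / 2 := by nlinarith
    -- let `V = g Q (T+1) / T^2 ≤ U`
    set V := g * Q * (T + 1) / T ^ 2 with hV
    have hVU : V ≤ U := by
      rw [hV, div_le_iff₀ (by positivity)]; exact h2
    have hV0 : 0 < V := by positivity
    have h7 : V * (Q * T - V) ≤ U * (Q * T - U) := by
      have h8 : 0 ≤ (U - V) * (Q * T - U - V) := by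
        apply mul_nonneg (by linarith)
        nlinarith
      nlinarith
    have h8 : g * Q ^ 2 * (1 + 1 / (T + 1)) ≤ V * (Q * T - V) := by
      rw [hV]
      have h9 : g * Q * (T + 1) / T ^ 2 * (Q * T - g * Q * (T + 1) / T ^ 2) -
          g * Q ^ 2 * (1 + 1 / (T + 1)) =
          g * Q ^ 2 * (T ^ 3 - g * (T + 1) ^ 3) / (T ^ 4 * (T + 1)) := by
        field_simp
        ring
      have h10 : 0 ≤ T ^ 3 - g * (T + 1) ^ 3 := by
        have h11 : (T + 1) ^ 3 ≤ 8 * T ^ 3 := by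
          have : (T + 1) ^ 3 ≤ (2 * T) ^ 3 := pow_le_pow_left₀ (by linarith) (by linarith) 3
          nlinarith
        have h12 : g * (T + 1) ^ 3 ≤ 1 / 8 * (8 * T ^ 3) :=
          mul_le_mul hg8 h11 (by positivity) (by norm_num)
        linarith
      have h11 : 0 ≤ g * Q ^ 2 * (T ^ 3 - g * (T + 1) ^ 3) / (T ^ 4 * (T + 1)) := by positivity
      linarith
    linarith

/-- The key approximation property of `a_j / q_j`. -/
lemma key : ∀ j : ℕ, ∀ u w : ℤ, u ≠ 0 → w ≠ 0 → qq j ∣ u * aa j - w →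
    gam j * (qq j : ℝ) * (1 + 1 / min |(u : ℝ)| |(w : ℝ)|) ≤ |(u : ℝ)| * |(w : ℝ)|
  | 0 => by
    intro u w hu hw _
    have h1 : (1 : ℝ) ≤ |(u : ℝ)| := by exact_mod_cast Int.one_le_abs hu
    have h2 : (1 : ℝ) ≤ |(w : ℝ)| := by exact_mod_cast Int.one_le_abs hw
    have h3 : 1 / min |(u : ℝ)| |(w : ℝ)| ≤ 1 := by
      rw [div_le_one (by positivity)]
      exact le_min h1 h2
    have h4 : (qq 0 : ℝ) = 4 := by unfold qq; norm_num
    rw [gam_zero, h4]
    nlinarith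
  | j + 1 => by
    intro x y hx hy hdvd
    have IH := key j
    obtain ⟨p, hp⟩ := hdvd
    rw [qq_succ, aa_succ] at hp
    have h4 := four_le_qq j
    have hg := gam_pos (j + 1)
    have hg8 := gam_le j
    have hg8' := gam_le (j + 1)
    have hgg := gam_succ j
    have hcop := coprime_aa j
    have hqR : (qq (j + 1) : ℝ) = (qq j : ℝ) ^ 2 := by rw [qq_succ]; push_cast; ring
    rw [hqR]
    set Q := qq j with hQdef
    set A := aa j with hAdef
    set t := x * A - p * Q with ht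
    have hyx : y = x + Q * t := by rw [ht]; linarith
    have hxA : Q ∣ x * A - t := ⟨p, by rw [ht]; ring⟩
    have hyA : Q ∣ y * A - t := ⟨p + t * A, by rw [hyx, ht]; ring⟩
    have h4R : (4 : ℝ) ≤ Q := by exact_mod_cast h4
    have hx1 : (1 : ℝ) ≤ |(x : ℝ)| := by exact_mod_cast Int.one_le_abs hx
    have hy1 : (1 : ℝ) ≤ |(y : ℝ)| := by exact_mod_cast Int.one_le_abs hy
    by_cases ht0 : t = 0
    · have hyx' : y = x := by rw [hyx, ht0]; ring
      have hQx : Q ∣ x := by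
        rw [ht0, sub_zero] at hxA
        exact hcop.symm.dvd_of_dvd_mul_right hxA
      have hQx' : Q ≤ |x| := Int.le_of_dvd (abs_pos.mpr hx) ((dvd_abs _ _).mpr hQx)
      have hQxR : (Q : ℝ) ≤ |(x : ℝ)| := by exact_mod_cast hQx'
      rw [hyx', min_self]
      have h5 : 1 / |(x : ℝ)| ≤ 1 := by rw [div_le_one (by linarith)]; exact hx1
      have h6 : (Q : ℝ) ^ 2 ≤ |(x : ℝ)| * |(x : ℝ)| := by nlinarith
      have h7 : gam (j + 1) * (Q : ℝ) ^ 2 * (1 + 1 / |(x : ℝ)|) ≤ 1 / 8 * (Q : ℝ) ^ 2 * 2 := by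
        apply mul_le_mul _ (by linarith) (by positivity) (by positivity)
        exact mul_le_mul_of_nonneg_right hg8' (by positivity)
      nlinarith
    · have ht1 : (1 : ℝ) ≤ |(t : ℝ)| := by exact_mod_cast Int.one_le_abs ht0
      have hyxR : (y : ℝ) = x + Q * t := by exact_mod_cast hyx
      have hQt : |(Q : ℝ) * t| = Q * |(t : ℝ)| := by
        rw [abs_mul, abs_of_pos (by linarith : (0 : ℝ) < Q)]
      have hd : (Q : ℝ) * |(t : ℝ)| ≤ |(y : ℝ)| + |(x : ℝ)| := by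
        rw [← hQt]
        have : (Q : ℝ) * t = y - x := by rw [hyxR]; ring
        rw [this]
        exact abs_sub _ _
      have hsplit : ∀ z : ℤ, |(z : ℝ)| ≤ |(t : ℝ)| ∨ |(t : ℝ)| + 1 ≤ |(z : ℝ)| := by
        intro z
        rcases le_or_gt |z| |t| with h | h
        · left; exact_mod_cast h
        · right
          have : |t| + 1 ≤ |z| := h
          exact_mod_cast this
      rcases le_total |(x : ℝ)| |(y : ℝ)| with hxy | hxy
      · rw [min_eq_left hxy]
        exact step (gam j) (gam (j + 1)) Q |(x : ℝ)| |(y : ℝ)| |(t : ℝ)| hg hg8 hgg h4R hx1 ht1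
          hxy (by linarith) hd (hsplit x) (IH x t hx ht0 hxA)
      · rw [min_eq_right hxy, mul_comm |(x : ℝ)|]
        exact step (gam j) (gam (j + 1)) Q |(y : ℝ)| |(x : ℝ)| |(t : ℝ)| hg hg8 hgg h4R hy1 ht1
          hxy (by linarith) (by linarith) (hsplit y) (IH y t hy ht0 hyA)

/-! ### The number `α` -/

/-- `α = ∑_j 4^{-2^j}` -/
noncomputable def alpha : ℝ := ∑' j : ℕ, (1 / (4 : ℝ)) ^ (2 ^ j)

lemma pow_add_le (j i : ℕ) : 2 ^ j + i ≤ 2 ^ (i + j) := by
  induction i with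
  | zero => simp
  | succ i ih =>
    have h : i + 1 + j = (i + j) + 1 := by ring
    have h2 : 1 ≤ 2 ^ (i + j) := Nat.one_le_two_pow
    rw [h, pow_succ]
    omega

lemma summable_alpha : Summable fun j : ℕ => (1 / (4 : ℝ)) ^ (2 ^ j) := by
  refine Summable.of_nonneg_of_le (fun j => by positivity) (fun j => ?_)
    (summable_geometric_of_lt_one (by norm_num) (by norm_num : (1 / (4 : ℝ)) < 1))
  exact pow_le_pow_of_le_one (by norm_num) (by norm_num) Nat.lt_two_pow_self.le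

lemma partial_sum : ∀ j : ℕ,
    ∑ i ∈ Finset.range (j + 1), (1 / (4 : ℝ)) ^ (2 ^ i) = (aa j : ℝ) / (qq j : ℝ)
  | 0 => by simp [aa, qq]
  | j + 1 => by
    rw [Finset.sum_range_succ, partial_sum j]
    have h1 : (qq (j + 1) : ℝ) = (qq j : ℝ) ^ 2 := by
      rw [qq_succ]; push_cast; ring
    have h2 : (aa (j + 1) : ℝ) = (aa j : ℝ) * qq j + 1 := by
      rw [aa_succ]; push_cast; ring
    have h3 : (1 / (4 : ℝ)) ^ (2 ^ (j + 1)) = 1 / (qq (j + 1) : ℝ) := by
      simp only [qq, Int.cast_pow, Int.cast_ofNat, one_div_pow]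
    rw [h3, h2, h1]
    have hq : (qq j : ℝ) ≠ 0 := by exact_mod_cast (qq_pos j).ne'
    field_simp

lemma tail_bounds (m : ℕ → ℕ) (hs : Summable fun j : ℕ => (1 / (4 : ℝ)) ^ m j)
    (M : ℕ) (h : ∀ i, M + i ≤ m i) :
    0 < ∑' i : ℕ, (1 / (4 : ℝ)) ^ m i ∧
      ∑' i : ℕ, (1 / (4 : ℝ)) ^ m i ≤ 2 / (4 : ℝ) ^ M := by
  constructor
  · exact hs.tsum_pos (fun i => by positivity) 0 (by positivity)
  · have hg : Summable fun i : ℕ => (1 / (4 : ℝ)) ^ M * (1 / (4 : ℝ)) ^ i :=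
      (summable_geometric_of_lt_one (by norm_num) (by norm_num)).mul_left _
    have hle : ∀ i : ℕ, (1 / (4 : ℝ)) ^ m i ≤ (1 / (4 : ℝ)) ^ M * (1 / (4 : ℝ)) ^ i := by
      intro i
      rw [← pow_add]
      exact pow_le_pow_of_le_one (by norm_num) (by norm_num) (h i)
    have h4 := hs.tsum_le_tsum hle hg
    have h5 : ∑' i : ℕ, (1 / (4 : ℝ)) ^ M * (1 / (4 : ℝ)) ^ i = (1 / (4 : ℝ)) ^ M * (4 / 3) := by
      rw [tsum_mul_left, tsum_geometric_of_lt_one (by norm_num) (by norm_num)]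
      norm_num
    rw [h5, one_div_pow] at h4
    refine h4.trans ?_
    have : (0 : ℝ) < (4 : ℝ) ^ M := by positivity
    rw [div_mul_eq_mul_div, div_le_div_iff_of_pos_right this]
    norm_num

lemma tail_bounds' (m : ℕ → ℕ) (hs : Summable fun j : ℕ => (1 / (4 : ℝ)) ^ m j)
    (j : ℕ) (h : ∀ i, m (j + 1) + i ≤ m (i + (j + 1))) :
    0 < (∑' i : ℕ, (1 / (4 : ℝ)) ^ m i) - ∑ i ∈ Finset.range (j + 1), (1 / (4 : ℝ)) ^ m i ∧
      (∑' i : ℕ, (1 / (4 : ℝ)) ^ m i) - ∑ i ∈ Finset.range (j + 1), (1 / (4 : ℝ)) ^ m i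
        ≤ 2 / (4 : ℝ) ^ m (j + 1) := by
  have h1 := hs.sum_add_tsum_nat_add (j + 1)
  rw [← h1, add_sub_cancel_left]
  have hs' : Summable fun i : ℕ => (1 / (4 : ℝ)) ^ m (i + (j + 1)) :=
    (summable_nat_add_iff (j + 1)).mpr hs
  exact tail_bounds (fun i => m (i + (j + 1))) hs' (m (j + 1)) h

lemma alpha_bounds (j : ℕ) :
    0 < alpha - (aa j : ℝ) / (qq j : ℝ) ∧
      alpha - (aa j : ℝ) / (qq j : ℝ) ≤ 2 / (qq j : ℝ) ^ 2 := by
  have h3 : (qq j : ℝ) ^ 2 = (4 : ℝ) ^ (2 ^ (j + 1)) := by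
    have : (qq (j + 1) : ℝ) = (qq j : ℝ) ^ 2 := by rw [qq_succ]; push_cast; ring
    rw [← this]
    simp only [qq, Int.cast_pow, Int.cast_ofNat]
  rw [← partial_sum, h3]
  exact tail_bounds' (fun j => 2 ^ j) summable_alpha j (fun i => pow_add_le (j + 1) i)

lemma lt_qq (q : ℤ) : ∃ j, 10 * q ≤ qq j := by
  refine ⟨(10 * q).toNat, ?_⟩
  have h2 : (10 * q).toNat < 2 ^ (10 * q).toNat := Nat.lt_two_pow_self
  have h3 : 2 ^ (10 * q).toNat < 4 ^ 2 ^ (10 * q).toNat := Nat.lt_pow_self (by norm_num)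
  have h4 : 10 * q ≤ ((10 * q).toNat : ℤ) := Int.self_le_toNat _
  have h5 : ((4 ^ 2 ^ (10 * q).toNat : ℕ) : ℤ) = qq (10 * q).toNat := by
    unfold qq; push_cast; rfl
  rw [← h5]
  have : (10 * q).toNat < 4 ^ 2 ^ (10 * q).toNat := lt_trans h2 h3
  omega

/-- `α` is badly approximable -/
lemma approx_lower (q p : ℤ) (hq : 0 < q) :
    1 / (48 * (q : ℝ)) ≤ |(q : ℝ) * alpha - p| := by
  obtain ⟨j, hj⟩ := lt_qq q
  have hQ : (0 : ℝ) < qq j := by exact_mod_cast qq_pos j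
  have hqR : (0 : ℝ) < q := by exact_mod_cast hq
  have hltR : 10 * (q : ℝ) ≤ qq j := by exact_mod_cast hj
  obtain ⟨hb1, hb2⟩ := alpha_bounds j
  set w : ℤ := q * aa j - p * qq j with hw
  have hw0 : w ≠ 0 := by
    intro h0
    have h1 : qq j ∣ q := by
      have : qq j ∣ q * aa j := ⟨p, by linarith⟩
      exact (coprime_aa j).symm.dvd_of_dvd_mul_right this
    have := Int.le_of_dvd hq h1
    linarith
  have hkey := key j q w hq.ne' hw0 ⟨p, by rw [hw]; ring⟩
  have hw1 : (1 : ℝ) ≤ |(w : ℝ)| := by exact_mod_cast Int.one_le_abs hw0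
  have hq1 : |(q : ℝ)| = q := abs_of_pos hqR
  rw [hq1] at hkey
  have hkey2 : 1 / 24 * (qq j : ℝ) ≤ q * |(w : ℝ)| := by
    refine le_trans ?_ hkey
    have h1 := gam_ge j
    have h2 : 0 ≤ 1 / min (q : ℝ) |(w : ℝ)| := by positivity
    have h3 : 1 / 24 * (qq j : ℝ) ≤ gam j * qq j := mul_le_mul_of_nonneg_right h1 hQ.le
    have h4 : 0 ≤ gam j * (qq j : ℝ) * (1 / min (q : ℝ) |(w : ℝ)|) := by
      have := gam_pos j
      positivity
    linarith
  have hwR : (w : ℝ) = q * aa j - p * qq j := by rw [hw]; push_cast; ring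
  set Q : ℝ := (qq j : ℝ)
  set A : ℝ := (aa j : ℝ)
  have h1 : 1 / (24 * q) ≤ |(q : ℝ) * (A / Q) - p| := by
    have : (q : ℝ) * (A / Q) - p = w / Q := by rw [hwR]; field_simp
    rw [this, abs_div, abs_of_pos hQ, div_le_div_iff₀ (by positivity) hQ]
    linarith
  have h2 : |(q : ℝ) * (A / Q) - p| - |(q : ℝ) * alpha - p| ≤ q * (2 / Q ^ 2) := by
    have h3 := abs_sub_abs_le_abs_sub ((q : ℝ) * (A / Q) - p) ((q : ℝ) * alpha - p)
    have h4 : ((q : ℝ) * (A / Q) - p) - ((q : ℝ) * alpha - p) = -(q * (alpha - A / Q)) := by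
      ring
    rw [h4, abs_neg, abs_of_pos (mul_pos hqR hb1)] at h3
    have h5 : q * (alpha - A / Q) ≤ q * (2 / Q ^ 2) :=
      mul_le_mul_of_nonneg_left hb2 hqR.le
    linarith
  have h3 : (q : ℝ) * (2 / Q ^ 2) ≤ 1 / (48 * q) := by
    rw [mul_div_assoc', div_le_div_iff₀ (by positivity) (by positivity)]
    nlinarith
  have h4 : 1 / (24 * (q : ℝ)) = 1 / (48 * q) + 1 / (48 * q) := by
    field_simp; norm_num
  linarith

lemma irrational_alpha : Irrational alpha := by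
  rintro ⟨r, hr⟩
  have h := approx_lower r.den r.num (by exact_mod_cast r.pos)
  rw [← hr] at h
  have hd : (0 : ℝ) < (r.den : ℝ) := by exact_mod_cast r.pos
  have h2 : ((r.den : ℤ) : ℝ) * (r : ℝ) - (r.num : ℝ) = 0 := by
    have : (r : ℝ) = (r.num : ℝ) / (r.den : ℝ) := by exact_mod_cast (Rat.num_div_den r).symm
    rw [this]
    push_cast
    field_simp
    ring
  rw [h2, abs_zero] at h
  have : (0 : ℝ) < 1 / (48 * ((r.den : ℤ) : ℝ)) := by push_cast; positivity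
  linarith

lemma type_alpha (κ : ℝ) (hκ : 2 ≤ κ) : IsOfType κ alpha := by
  refine ⟨1 / 48, by norm_num, ?_⟩
  intro a q hq _
  have hq0 : (0 : ℤ) < q := hq
  have h := approx_lower q a hq0
  have hqR : (1 : ℝ) ≤ q := by exact_mod_cast hq
  have hqR0 : (0 : ℝ) < q := by linarith
  have h1 : |alpha - (a : ℝ) / q| = |(q : ℝ) * alpha - a| / q := by
    have h2 : (q : ℝ) * alpha - a = q * (alpha - a / q) := by field_simp
    rw [h2, abs_mul, abs_of_pos hqR0]
    field_simp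
  rw [h1]
  have h2 : (q : ℝ) ^ (-κ) ≤ (q : ℝ) ^ (-(2 : ℝ)) :=
    Real.rpow_le_rpow_of_exponent_le hqR (by linarith)
  have h3 : (q : ℝ) ^ (-(2 : ℝ)) = 1 / (q * q) := by
    rw [Real.rpow_neg hqR0.le, Real.rpow_two, one_div]
    congr 1
    ring
  calc 1 / 48 * (q : ℝ) ^ (-κ) ≤ 1 / 48 * (1 / (q * q)) := by
        rw [← h3]; exact mul_le_mul_of_nonneg_left h2 (by norm_num)
    _ = 1 / (48 * q) / q := by field_simp
    _ ≤ |(q : ℝ) * alpha - a| / q := div_le_div_of_nonneg_right h hqR0.le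

/-! ### The test function and the lower bound for the correlation -/

/-- the test function `max (0, 2 - ‖y‖_∞)` -/
noncomputable def bump (d : ℕ) (y : Fin d → ℝ) : ℝ := max 0 (2 - ‖y‖)

lemma bump_continuous (d : ℕ) : Continuous (bump d) := by
  unfold bump; fun_prop

lemma bump_nonneg (d : ℕ) (y : Fin d → ℝ) : 0 ≤ bump d y := le_max_left _ _

lemma bump_compact (d : ℕ) : HasCompactSupport (bump d) := by
  refine HasCompactSupport.of_support_subset_isCompact (isCompact_closedBall 0 2) ?_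
  intro y hy
  rw [Function.mem_support] at hy
  rw [mem_closedBall_zero_iff]
  by_contra h
  push Not at h
  exact hy (max_eq_left (by linarith))

lemma bump_ge_one (d : ℕ) (y : Fin d → ℝ) (h : ∀ i, |y i| ≤ 1) : 1 ≤ bump d y := by
  have : ‖y‖ ≤ 1 := (pi_norm_le_iff_of_nonneg zero_le_one).mpr (fun i => by simpa using h i)
  exact le_trans (by linarith) (le_max_right _ _)

lemma x_mem (α : ℝ) (n : ℕ) : 0 ≤ x α n ∧ x α n < 1 := ⟨Int.fract_nonneg _, Int.fract_lt_one _⟩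

lemma summable_inner (d N : ℕ) (hN : 1 ≤ N) (α : ℝ) (n : Fin (d + 1) → ℕ) :
    Summable fun m : Fin d → ℤ =>
      bump d fun i => (N : ℝ) * (x α (n i.castSucc) - x α (n i.succ) + (m i : ℝ)) := by
  apply summable_of_hasFiniteSupport
  refine (Set.finite_Icc (fun _ : Fin d => (-3 : ℤ)) (fun _ => 3)).subset ?_
  intro m hm
  rw [Function.mem_support] at hm
  have h1 : ‖fun i : Fin d => (N : ℝ) * (x α (n i.castSucc) - x α (n i.succ) + (m i : ℝ))‖ < 2 := by
    by_contra h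
    push Not at h
    exact hm (max_eq_left (by linarith))
  have hNR : (1 : ℝ) ≤ N := by exact_mod_cast hN
  have h2 : ∀ i, |(m i : ℝ)| < 3 := by
    intro i
    have h3 := (norm_le_pi_norm (fun i : Fin d =>
      (N : ℝ) * (x α (n i.castSucc) - x α (n i.succ) + (m i : ℝ))) i).trans_lt h1
    simp only [Real.norm_eq_abs, abs_mul, Nat.abs_cast] at h3
    have h4 : |x α (n i.castSucc) - x α (n i.succ) + (m i : ℝ)| < 2 := by
      have := abs_nonneg (x α (n i.castSucc) - x α (n i.succ) + (m i : ℝ))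
      nlinarith
    have h5 := x_mem α (n i.castSucc)
    have h6 := x_mem α (n i.succ)
    rw [abs_lt] at h4 ⊢
    constructor <;> linarith [h4.1, h4.2, h5.1, h5.2, h6.1, h6.2]
  constructor
  · intro i
    have := h2 i
    rw [abs_lt] at this
    have h := this.1
    have : (-3 : ℤ) < m i := by exact_mod_cast h
    exact this.le
  · intro i
    have := h2 i
    rw [abs_lt] at this
    have h := this.2
    have : m i < (3 : ℤ) := by exact_mod_cast h
    exact this.le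

lemma corr_lower (d N : ℕ) (hN : 1 ≤ N) (α : ℝ) (T : Finset (Fin (d + 1) → ℕ))
    (hT : T ⊆ (Fintype.piFinset fun _ : Fin (d + 1) => Finset.Icc 1 N).filter
        (fun n => Function.Injective n))
    (hcl : ∀ n ∈ T, ∀ i j, |x α (n i) - x α (n j)| ≤ 1 / N) :
    (T.card : ℝ) / N ≤ corr d N α (bump d) := by
  unfold corr
  have hNR : (0 : ℝ) < N := by exact_mod_cast hN
  rw [div_eq_mul_one_div, mul_comm]
  refine mul_le_mul_of_nonneg_left ?_ (by positivity)
  refine le_trans ?_ (Finset.sum_le_sum_of_subset_of_nonneg hT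
    (fun n _ _ => tsum_nonneg (fun m => bump_nonneg d _)))
  rw [Finset.card_eq_sum_ones]
  push_cast
  refine Finset.sum_le_sum (fun n hn => ?_)
  have h1 := (summable_inner d N hN α n).le_tsum (0 : Fin d → ℤ) (fun m _ => bump_nonneg d _)
  refine le_trans ?_ h1
  apply bump_ge_one
  intro i
  simp only [Pi.zero_apply, Int.cast_zero, add_zero, abs_mul, Nat.abs_cast]
  have h2 := hcl n hn i.castSucc i.succ
  have h3 := mul_le_mul_of_nonneg_left h2 hNR.le
  rw [mul_one_div_cancel hNR.ne'] at h3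
  exact h3

/-- the cluster near `0` -/
lemma x_cluster (j u N : ℕ) (hN : 2 ≤ N) (hu : 2 * (u : ℤ) ^ 2 * N ≤ qq j) :
    0 ≤ x alpha (2 ^ (2 ^ j) * u) ∧ x alpha (2 ^ (2 ^ j) * u) ≤ 1 / N := by
  refine ⟨(x_mem _ _).1, ?_⟩
  obtain ⟨hb1, hb2⟩ := alpha_bounds j
  have huR : 2 * (u : ℝ) ^ 2 * N ≤ (qq j : ℝ) := by exact_mod_cast hu
  have hQ : (0 : ℝ) < qq j := by exact_mod_cast qq_pos j
  have hq4 : (qq j : ℝ) = ((2 : ℝ) ^ (2 ^ j)) ^ 2 := by
    unfold qq
    push_cast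
    rw [← pow_mul, mul_comm, pow_mul]
    norm_num
  have hNR : (2 : ℝ) ≤ N := by exact_mod_cast hN
  set θ : ℝ := (qq j : ℝ) * (alpha - (aa j : ℝ) / (qq j : ℝ)) with hθ
  have hθ0 : 0 < θ := mul_pos hQ hb1
  have hθ1 : θ ≤ 2 / (qq j : ℝ) := by
    have := mul_le_mul_of_nonneg_left hb2 hQ.le
    refine this.trans (le_of_eq ?_)
    field_simp
  have h1 : (((2 ^ (2 ^ j) * u : ℕ) : ℝ)) ^ 2 * alpha =
      (u : ℝ) ^ 2 * θ + ((u ^ 2 * aa j : ℤ) : ℝ) := by
    have : alpha = θ / qq j + (aa j : ℝ) / (qq j : ℝ) := by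
      rw [hθ]; field_simp; ring
    rw [this]
    push_cast
    rw [mul_pow, ← hq4]
    field_simp
  have h2 : (u : ℝ) ^ 2 * θ ≤ 1 / N := by
    have h3 : (u : ℝ) ^ 2 * θ ≤ u ^ 2 * (2 / (qq j : ℝ)) :=
      mul_le_mul_of_nonneg_left hθ1 (by positivity)
    refine h3.trans ?_
    rw [mul_div_assoc', div_le_div_iff₀ (by positivity) (by linarith)]
    linarith
  have h3 : (u : ℝ) ^ 2 * θ < 1 := by
    have : (1 : ℝ) / N < 1 := by
      rw [div_lt_one (by linarith)]; linarith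
    linarith
  unfold x
  rw [h1, Int.fract_add_intCast, Int.fract_eq_self.mpr ⟨by positivity, h3⟩]
  exact h2

/-- lower bound for the correlation at `N` from one approximation `a_j/q_j` -/
lemma corr_lower' (d j L N : ℕ) (hN : 2 ≤ N)
    (h1 : 2 ^ (2 ^ j) * ((d + 1) * L) ≤ N)
    (h2 : 2 * (((d + 1) * L : ℕ) : ℤ) ^ 2 * N ≤ qq j) :
    ((L : ℝ) ^ (d + 1)) / N ≤ corr d N alpha (bump d) := by
  classical
  set v := 2 ^ (2 ^ j) with hv
  have hv0 : 0 < v := by positivity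
  let T : Finset (Fin (d + 1) → ℕ) := Fintype.piFinset fun i : Fin (d + 1) =>
    (Finset.Icc 1 L).image (fun w => v * ((i : ℕ) * L + w))
  have hcard : T.card = L ^ (d + 1) := by
    rw [Fintype.card_piFinset]
    have : ∀ i : Fin (d + 1),
        ((Finset.Icc 1 L).image (fun w => v * ((i : ℕ) * L + w))).card = L := by
      intro i
      rw [Finset.card_image_of_injective, Nat.card_Icc]
      · omega
      · intro a b hab
        have := Nat.eq_of_mul_eq_mul_left hv0 hab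
        omega
    rw [Finset.prod_congr rfl (fun i _ => this i)]
    simp
  have hmem : ∀ n ∈ T, ∀ i : Fin (d + 1), ∃ w : ℕ, 1 ≤ w ∧ w ≤ L ∧ n i = v * ((i : ℕ) * L + w) := by
    intro n hn i
    have := Fintype.mem_piFinset.mp hn i
    rw [Finset.mem_image] at this
    obtain ⟨w, hw, hw2⟩ := this
    rw [Finset.mem_Icc] at hw
    exact ⟨w, hw.1, hw.2, hw2.symm⟩
  have hbd : ∀ (i : Fin (d + 1)) (w : ℕ), w ≤ L → (i : ℕ) * L + w ≤ (d + 1) * L := by
    intro i w hw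
    have hi : (i : ℕ) + 1 ≤ d + 1 := i.isLt
    calc (i : ℕ) * L + w ≤ (i : ℕ) * L + L := by omega
      _ = ((i : ℕ) + 1) * L := by ring
      _ ≤ (d + 1) * L := Nat.mul_le_mul_right _ hi
  have hT : T ⊆ (Fintype.piFinset fun _ : Fin (d + 1) => Finset.Icc 1 N).filter
        (fun n => Function.Injective n) := by
    intro n hn
    rw [Finset.mem_filter, Fintype.mem_piFinset]
    constructor
    · intro i
      obtain ⟨w, hw1, hw2, hw3⟩ := hmem n hn i
      rw [Finset.mem_Icc, hw3]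
      constructor
      · exact Nat.mul_pos hv0 (by omega)
      · exact (Nat.mul_le_mul_left v (hbd i w hw2)).trans h1
    · intro i i' hii
      obtain ⟨w, hw1, hw2, hw3⟩ := hmem n hn i
      obtain ⟨w', hw1', hw2', hw3'⟩ := hmem n hn i'
      rw [hw3, hw3'] at hii
      have h4 := Nat.eq_of_mul_eq_mul_left hv0 hii
      by_contra hne
      have hne' : (i : ℕ) ≠ (i' : ℕ) := fun h => hne (Fin.ext h)
      rcases Nat.lt_or_gt_of_ne hne' with hlt | hlt
      · have : ((i : ℕ) + 1) * L ≤ (i' : ℕ) * L := Nat.mul_le_mul_right _ hlt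
        rw [Nat.add_mul, one_mul] at this
        omega
      · have : ((i' : ℕ) + 1) * L ≤ (i : ℕ) * L := Nat.mul_le_mul_right _ hlt
        rw [Nat.add_mul, one_mul] at this
        omega
  have hcl : ∀ n ∈ T, ∀ i i', |x alpha (n i) - x alpha (n i')| ≤ 1 / N := by
    intro n hn i i'
    have key2 : ∀ i : Fin (d + 1), 0 ≤ x alpha (n i) ∧ x alpha (n i) ≤ 1 / N := by
      intro i
      obtain ⟨w, hw1, hw2, hw3⟩ := hmem n hn i
      rw [hw3]
      apply x_cluster j _ N hN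
      refine le_trans ?_ h2
      have h5 : (((i : ℕ) * L + w : ℕ) : ℤ) ≤ (((d + 1) * L : ℕ) : ℤ) := by
        exact_mod_cast hbd i w hw2
      have h6 : (((i : ℕ) * L + w : ℕ) : ℤ) ^ 2 ≤ (((d + 1) * L : ℕ) : ℤ) ^ 2 :=
        pow_le_pow_left₀ (by positivity) h5 2
      have h7 : (0 : ℤ) ≤ N := by positivity
      nlinarith
    have h8 := key2 i
    have h9 := key2 i'
    rw [abs_le]
    constructor <;> linarith [h8.1, h8.2, h9.1, h9.2]
  have h3 := corr_lower d N (by omega) alpha T hT hcl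
  rw [hcard] at h3
  push_cast at h3
  exact h3

/-- the sequence `N_j = 2^{2^j + s}` with `s = ⌊(2^j - 1)/3⌋` -/
def NN (j : ℕ) : ℕ := 2 ^ (2 ^ j + (2 ^ j - 1) / 3)

lemma corr_large (j : ℕ) (hj : 6 ≤ j) :
    (2 : ℝ) ^ ((2 ^ j - 1) / 3 - 18) ≤ corr 4 (NN j) alpha (bump 4) := by
  set s := (2 ^ j - 1) / 3 with hs
  have h64 : 64 ≤ 2 ^ j := by
    calc 64 = 2 ^ 6 := by norm_num
      _ ≤ 2 ^ j := Nat.pow_le_pow_right (by norm_num) hj
  set M := 2 ^ j with hM
  have hs1 : 3 * s + 1 ≤ M := by omega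
  have hs2 : M ≤ 3 * s + 3 := by omega
  have hs3 : 18 ≤ s := by omega
  have hN : NN j = 2 ^ (M + s) := rfl
  have hN2 : 2 ≤ NN j := by
    rw [hN]
    calc 2 = 2 ^ 1 := rfl
      _ ≤ 2 ^ (M + s) := Nat.pow_le_pow_right (by norm_num) (by omega)
  have hL : (4 + 1) * 2 ^ (s - 3) ≤ 2 ^ s := by
    have : 2 ^ s = 2 ^ 3 * 2 ^ (s - 3) := by rw [← pow_add]; congr 1; omega
    rw [this]
    exact Nat.mul_le_mul_right _ (by norm_num)
  have h1 : 2 ^ (2 ^ j) * ((4 + 1) * 2 ^ (s - 3)) ≤ NN j := by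
    rw [hN, pow_add]
    exact Nat.mul_le_mul_left _ hL
  have h2 : 2 * (((4 + 1) * 2 ^ (s - 3) : ℕ) : ℤ) ^ 2 * NN j ≤ qq j := by
    have h3 : 2 * ((4 + 1) * 2 ^ (s - 3)) ^ 2 * NN j ≤ 4 ^ 2 ^ j := by
      calc 2 * ((4 + 1) * 2 ^ (s - 3)) ^ 2 * NN j
          ≤ 2 * (2 ^ s) ^ 2 * 2 ^ (M + s) := by
            rw [hN]
            exact Nat.mul_le_mul_right _ (Nat.mul_le_mul_left _ (Nat.pow_le_pow_left hL 2))
        _ = 2 ^ (3 * s + 1 + M) := by ring
        _ ≤ 2 ^ (2 * M) := Nat.pow_le_pow_right (by norm_num) (by omega)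
        _ = 4 ^ 2 ^ j := by rw [pow_mul, ← hM]; norm_num
    unfold qq
    exact_mod_cast h3
  have h3 := corr_lower' 4 j (2 ^ (s - 3)) (NN j) hN2 h1 h2
  refine le_trans ?_ h3
  have hNR : (0 : ℝ) < NN j := by exact_mod_cast (by omega : 0 < NN j)
  rw [le_div_iff₀ hNR]
  have h5 : 2 ^ (s - 18) * NN j ≤ (2 ^ (s - 3)) ^ (4 + 1) := by
    rw [hN, ← pow_add, ← pow_mul]
    exact Nat.pow_le_pow_right (by norm_num) (by omega)
  have h6 : ((2 ^ (s - 18) * NN j : ℕ) : ℝ) ≤ (((2 ^ (s - 3)) ^ (4 + 1) : ℕ) : ℝ) := by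
    exact_mod_cast h5
  push_cast at h6 ⊢
  exact h6

lemma NN_tendsto : Tendsto NN atTop atTop := by
  refine tendsto_atTop_mono (f := fun j => j) (fun j => ?_) tendsto_id
  unfold NN
  have h1 : j < 2 ^ j := Nat.lt_two_pow_self
  have h2 : 2 ^ j < 2 ^ 2 ^ j := Nat.lt_two_pow_self
  have h3 : 2 ^ 2 ^ j ≤ 2 ^ (2 ^ j + (2 ^ j - 1) / 3) :=
    Nat.pow_le_pow_right (by norm_num) (Nat.le_add_right _ _)
  show j ≤ _
  omega

lemma corr_tendsto : Tendsto (fun j : ℕ => corr 4 (NN j) alpha (bump 4)) atTop atTop := by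
  have h1 : Tendsto (fun j : ℕ => (2 : ℝ) ^ ((2 ^ j - 1) / 3 - 18)) atTop atTop := by
    have h2 : Tendsto (fun j : ℕ => (2 ^ j - 1) / 3 - 18) atTop atTop := by
      rw [tendsto_atTop]
      intro b
      filter_upwards [eventually_ge_atTop (3 * b + 60)] with j hj
      have : j < 2 ^ j := Nat.lt_two_pow_self
      omega
    exact (tendsto_pow_atTop_atTop_of_one_lt (by norm_num : (1 : ℝ) < 2)).comp h2
  refine tendsto_atTop_mono' atTop ?_ h1
  filter_upwards [eventually_ge_atTop 6] with j hj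
  exact corr_large j hj

/-- There is an irrational `α` of type `2` (badly approximable, so of type `κ` for every `κ ≥ 2`)
whose `5`-level correlations are unbounded: `R_5(f, N_j) → +∞` for some `f` and some `N_j → ∞`.
So `{n² α}` is not Poissonian as `N → ∞` through all integers. -/
theorem result : ∃ α : ℝ, Irrational α ∧ (∀ κ : ℝ, 2 ≤ κ → IsOfType κ α) ∧
    (∃ f : (Fin 4 → ℝ) → ℝ, Continuous f ∧ HasCompactSupport f ∧
      (∃ N : ℕ → ℕ, Tendsto N atTop atTop ∧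
        Tendsto (fun j : ℕ => corr 4 (N j) α f) atTop atTop) ∧
      ¬ Tendsto (fun N : ℕ => corr 4 N α f) atTop (𝓝 (∫ y, f y))) ∧
    ¬ PoissonianAlong α (fun N => N) := by
  have hnot : ¬ Tendsto (fun N : ℕ => corr 4 N alpha (bump 4)) atTop (𝓝 (∫ y, bump 4 y)) := by
    intro h
    exact not_tendsto_nhds_of_tendsto_atTop corr_tendsto _ (h.comp NN_tendsto)
  refine ⟨alpha, irrational_alpha, type_alpha, ⟨bump 4, bump_continuous _, bump_compact _,
    ⟨NN, NN_tendsto, corr_tendsto⟩, hnot⟩, ?_⟩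
  intro hP
  exact hnot (hP 4 (by norm_num) (bump 4) (bump_continuous _) (bump_compact _))

end Pool.Agent.Results.MP_0a44cb_nt.BadlyApproxR5


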